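import Pool.Agent.H626R2.Loc.ODefs

/-!
# Derivatives of bounded occurrence sums (task O3)
-/

set_option autoImplicit false

namespace Pool.Agent.H626R2.Loc

open MvPolynomial

namespace O3

variable {K : Type} [Field K] {n : ℕ}

theorem of_fintype {S : Set (MvPolynomial (Fin n) K)} {k : ℕ} {ι : Type} [Fintype ι]
    (hk : Fintype.card ι ≤ k) (a : ι → K) (M : ι → Multiset (MvPolynomial (Fin n) K))
    (hM : ∀ i, ∀ g ∈ M i, g ∈ S) {f : MvPolynomial (Fin n) K}
    (hf : f = ∑ i, C (a i) * (M i).prod) : SumProd k S f := by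
  classical
  let e := Fintype.equivFin ι
  refine ⟨fun i => if h : i.val < Fintype.card ι then a (e.symm ⟨i.val, h⟩) else 0,
    fun i => if h : i.val < Fintype.card ι then M (e.symm ⟨i.val, h⟩) else 0, ?_, ?_⟩
  · intro i g hg
    simp only at hg
    split_ifs at hg with h
    · exact hM _ g hg
    · exact absurd hg (Multiset.notMem_zero g)
  · let F : ℕ → MvPolynomial (Fin n) K := fun i => if h : i < Fintype.card ι then
      C (a (e.symm ⟨i, h⟩)) * (M (e.symm ⟨i, h⟩)).prod else 0
    have h1 : (∑ i : Fin k, C (if h : i.val < Fintype.card ι then a (e.symm ⟨i.val, h⟩) else 0) *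
        (if h : i.val < Fintype.card ι then M (e.symm ⟨i.val, h⟩) else 0 :
          Multiset (MvPolynomial (Fin n) K)).prod) = ∑ i : Fin k, F i := by
      refine Finset.sum_congr rfl fun i _ => ?_
      simp only [F]
      split_ifs with h
      · rfl
      · simp
    have h2 : (∑ i : Fin k, F i) = ∑ i ∈ Finset.range k, F i := Fin.sum_univ_eq_sum_range F k
    have h3 : (∑ i ∈ Finset.range (Fintype.card ι), F i) = ∑ i ∈ Finset.range k, F i := by
      refine Finset.sum_subset (Finset.range_subset_range.mpr hk) fun i _ hi => ?_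
      rw [Finset.mem_range] at hi
      simp only [F]
      rw [dif_neg hi]
    have h4 : (∑ i : Fin (Fintype.card ι), F i) = ∑ i ∈ Finset.range (Fintype.card ι), F i :=
      Fin.sum_univ_eq_sum_range F _
    have h5 : (∑ i : Fin (Fintype.card ι), F i) = f := by
      rw [hf, ← e.sum_comp]
      refine Finset.sum_congr rfl fun i _ => ?_
      simp only [F]
      rw [dif_pos (e i).isLt]
      simp
    rw [h1, h2, ← h3, ← h4, h5]

theorem sum_finset {S : Set (MvPolynomial (Fin n) K)} {k : ℕ} {ι : Type} (A : Finset ι)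
    (F : ι → MvPolynomial (Fin n) K) (h : ∀ i ∈ A, SumProd k S (F i)) :
    SumProd (A.card * k) S (∑ i ∈ A, F i) := by
  classical
  choose a M hM hf using h
  refine of_fintype (ι := A × Fin k) (by simp) (fun p => a p.1.1 p.1.2 p.2)
    (fun p => M p.1.1 p.1.2 p.2) (fun p g hg => hM p.1.1 p.1.2 p.2 g hg) ?_
  rw [Fintype.sum_prod_type, ← Finset.sum_attach]
  exact Finset.sum_congr rfl fun i _ => hf i.1 i.2

theorem mul_left {S : Set (MvPolynomial (Fin n) K)} {k : ℕ} (b : K)
    (N : Multiset (MvPolynomial (Fin n) K)) (hN : ∀ g ∈ N, g ∈ S) {f : MvPolynomial (Fin n) K}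
    (hf : SumProd k S f) : SumProd k S (C b * N.prod * f) := by
  obtain ⟨a, M, hM, rfl⟩ := hf
  refine ⟨fun i => b * a i, fun i => N + M i, ?_, ?_⟩
  · intro i g hg
    rcases Multiset.mem_add.mp hg with h | h
    · exact hN g h
    · exact hM i g h
  · rw [Finset.mul_sum]
    refine Finset.sum_congr rfl fun i _ => ?_
    rw [Multiset.prod_add, C_mul]
    ring

theorem pderiv_prod {ι : Type} [DecidableEq ι] (m : Fin n) (s : Finset ι)
    (F : ι → MvPolynomial (Fin n) K) :
    pderiv m (∏ i ∈ s, F i) = ∑ i ∈ s, (∏ j ∈ s.erase i, F j) * pderiv m (F i) := by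
  induction s using Finset.induction_on with
  | empty => simp
  | insert i s hi ih =>
    rw [Finset.prod_insert hi, Derivation.leibniz, ih, Finset.sum_insert hi,
      Finset.erase_insert hi, smul_eq_mul, smul_eq_mul, Finset.mul_sum, add_comm]
    congr 1
    refine Finset.sum_congr rfl fun j hj => ?_
    have hij : i ≠ j := fun h => hi (h ▸ hj)
    rw [Finset.erase_insert_of_ne hij, Finset.prod_insert (fun h => hi (Finset.mem_of_mem_erase h))]
    ring

end O3

section occ

variable {K : Type} [Field K] {n : ℕ}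

/-- O3b. -/
theorem SumProd.mono {S S' : Set (MvPolynomial (Fin n) K)} {k k' : ℕ} (hk : k ≤ k') (hS : S ⊆ S')
    {f : MvPolynomial (Fin n) K} (hf : SumProd k S f) : SumProd k' S' f := by
  obtain ⟨a, M, hM, hf⟩ := hf
  exact O3.of_fintype (by simpa using hk) a M (fun i g hg => hS (hM i g hg)) hf

/-- O3. -/
theorem pderiv_occ {S : Set (MvPolynomial (Fin n) K)} {c c' : ℕ}
    (hS : ∀ σ ∈ S, ∀ m, SumProd c' S (pderiv m σ)) {σ : MvPolynomial (Fin n) K}
    (hσ : σ ∈ Occ c S) (m : Fin n) : SumProd (c * c') S (pderiv m σ) := by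
  classical
  obtain ⟨N, I, a, g, e, hg, hocc, rfl⟩ := hσ
  set A : Finset (Fin N × Fin I) := Finset.univ.filter (fun li => m ∈ (g li.1 li.2).vars) with hA
  have hAc : A.card ≤ c := by
    have h := hocc m
    rw [← Set.ncard_coe_finset] 
    convert h using 2
    ext li
    simp [hA]
  set F : Fin N × Fin I → MvPolynomial (Fin n) K := fun li =>
    C (a li.1 * (e li.1 li.2 : K)) *
      (Multiset.replicate (e li.1 li.2 - 1) (g li.1 li.2) +
        (Finset.univ.erase li.2).val.bind
          (fun i => Multiset.replicate (e li.1 i) (g li.1 i))).prod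
        * pderiv m (g li.1 li.2) with hF
  have hsum : pderiv m (∑ l, C (a l) * ∏ i, g l i ^ e l i) = ∑ li, F li := by
    rw [map_sum, Fintype.sum_prod_type]
    refine Finset.sum_congr rfl fun l _ => ?_
    rw [Derivation.leibniz, pderiv_C, smul_zero, add_zero, smul_eq_mul, O3.pderiv_prod,
      Finset.mul_sum]
    refine Finset.sum_congr rfl fun i _ => ?_
    rw [Derivation.leibniz_pow]
    simp only [hF, Multiset.prod_add, Multiset.prod_replicate, Multiset.prod_bind, smul_eq_mul,
      nsmul_eq_mul, C_mul]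
    have : (Multiset.map (fun i => g l i ^ e l i) (Finset.univ.erase i).val).prod
        = ∏ j ∈ Finset.univ.erase i, g l j ^ e l j := rfl
    rw [this]
    have h2 : (C (e l i : K) : MvPolynomial (Fin n) K) = (e l i : MvPolynomial (Fin n) K) := by
      simp
    rw [h2]
    ring
  have hsub : ∑ li, F li = ∑ li ∈ A, F li := by
    symm
    refine Finset.sum_subset (Finset.subset_univ _) fun li _ hli => ?_
    have : m ∉ (g li.1 li.2).vars := by
      intro h
      exact hli (by simp [hA, h])
    simp only [hF]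
    rw [pderiv_eq_zero_of_notMem_vars this, mul_zero]
  rw [hsum, hsub]
  refine SumProd.mono (Nat.mul_le_mul_right c' hAc) subset_rfl (O3.sum_finset A F fun li _ => ?_)
  refine O3.mul_left _ _ ?_ (hS _ (hg _ _) m)
  intro h hh
  rcases Multiset.mem_add.mp hh with h1 | h1
  · rw [Multiset.eq_of_mem_replicate h1]
    exact hg _ _
  · obtain ⟨i, _, hi⟩ := Multiset.mem_bind.mp h1
    rw [Multiset.eq_of_mem_replicate hi]
    exact hg _ _

end occ

end Pool.Agent.H626R2.Loc
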