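import Pool.Agent.H626R2.Loc.ODefs

/-!
# Flattening the seeds in two steps; a nonvanishing criterion (task O6)
-/

set_option autoImplicit false

namespace Pool.Agent.H626R2.Loc

open MvPolynomial

namespace O6

variable {K : Type} [Field K] {n : ℕ} {B₀ : Type} [CommRing B₀] [Algebra K B₀]

theorem gen_aux {B : Type} [CommRing B] [Algebra K B] [Algebra B₀ B]
    [IsScalarTower K B₀ B] {D e : ℕ} (β : Fin n → B₀) (u w : Fin D → B) :
    ∃ φ : MvPolynomial (Fin (D + e) ⊕ Fin (D + e)) B₀ →ₐ[K] B, ∀ m : Fin n,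
      φ (genG β (D + e) m) = algebraMap B₀ B (β m) +
        ∑ l, u l * ∏ j ∈ Finset.univ.erase m, (w l - ((j : ℕ) : B)) := by
  let y : Fin (D + e) → B := Fin.append u (fun _ => 0)
  let z : Fin (D + e) → B := Fin.append w (fun _ => 0)
  refine ⟨(aeval (R := B₀) (Sum.elim y z)).restrictScalars K, fun m => ?_⟩
  have h1 : ((aeval (R := B₀) (Sum.elim y z)).restrictScalars K :
      MvPolynomial (Fin (D + e) ⊕ Fin (D + e)) B₀ →ₐ[K] B)
      (genG β (D + e) m) = algebraMap B₀ B (β m) +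
      ∑ l, y l * ∏ j ∈ Finset.univ.erase m, (z l - ((j : ℕ) : B)) := by
    rw [AlgHom.restrictScalars_apply]
    unfold genG
    rw [map_add, aeval_C, map_sum]
    congr 1
    refine Finset.sum_congr rfl fun l _ => ?_
    rw [map_mul, map_prod, aeval_X, Sum.elim_inl]
    congr 1
    refine Finset.prod_congr rfl fun j _ => ?_
    rw [map_sub, aeval_X, Sum.elim_inr, aeval_C, map_natCast]
  rw [h1, Fin.sum_univ_add]
  have h2 : ∑ i : Fin e, y (Fin.natAdd D i) *
      ∏ j ∈ Finset.univ.erase m, (z (Fin.natAdd D i) - ((j : ℕ) : B)) = 0 := by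
    refine Finset.sum_eq_zero fun i _ => ?_
    simp [y]
  rw [h2, add_zero]
  congr 1
  refine Finset.sum_congr rfl fun l _ => ?_
  simp [y, z]

theorem flat_aux {T₁ T₂ e : ℕ} (β : Fin n → B₀) :
    ∃ φ : MvPolynomial (Fin (T₁ + T₂ + e) ⊕ Fin (T₁ + T₂ + e)) B₀ →ₐ[K]
      MvPolynomial (Fin T₂ ⊕ Fin T₂) (MvPolynomial (Fin T₁ ⊕ Fin T₁) B₀),
      ∀ m : Fin n, φ (genG β (T₁ + T₂ + e) m) = genG (genG β T₁) T₂ m := by
  obtain ⟨φ, hφ⟩ := gen_aux (K := K) (B₀ := B₀)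
    (B := MvPolynomial (Fin T₂ ⊕ Fin T₂) (MvPolynomial (Fin T₁ ⊕ Fin T₁) B₀)) (e := e) β
    (Fin.append (fun l => C (X (Sum.inl l))) (fun l => X (Sum.inl l)))
    (Fin.append (fun l => C (X (Sum.inr l))) (fun l => X (Sum.inr l)))
  refine ⟨φ, fun m => ?_⟩
  rw [hφ m, Fin.sum_univ_add, ← add_assoc]
  simp only [Fin.append_left, Fin.append_right]
  unfold genG
  congr 1
  rw [map_add, map_sum]
  congr 1
  refine Finset.sum_congr rfl fun l _ => ?_
  rw [map_mul, map_prod]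
  congr 1
  refine Finset.prod_congr rfl fun j _ => ?_
  rw [map_sub, map_natCast, map_natCast]

end O6

section occ

variable {K : Type} [Field K] {n : ℕ}

/-- O6. -/
theorem exists_flat {B₀ : Type} [CommRing B₀] [Algebra K B₀] {T₁ T₂ T : ℕ} (hT : T₁ + T₂ ≤ T)
    (β : Fin n → B₀) : ∃ φ : MvPolynomial (Fin T ⊕ Fin T) B₀ →ₐ[K]
      MvPolynomial (Fin T₂ ⊕ Fin T₂) (MvPolynomial (Fin T₁ ⊕ Fin T₁) B₀),
      ∀ f : MvPolynomial (Fin n) K, φ (evG K β T f) = evG K (genG β T₁) T₂ f := by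
  obtain ⟨e, rfl⟩ : ∃ e, T = T₁ + T₂ + e := ⟨T - (T₁ + T₂), by omega⟩
  obtain ⟨φ, hφ⟩ := O6.flat_aux (K := K) (T₁ := T₁) (T₂ := T₂) (e := e) β
  refine ⟨φ, fun f => ?_⟩
  have h : φ.comp (evG K β (T₁ + T₂ + e)) = evG K (genG β T₁) T₂ := by
    apply MvPolynomial.algHom_ext
    intro m
    rw [AlgHom.comp_apply]
    unfold evG
    rw [aeval_X, aeval_X, hφ m]
  exact DFunLike.congr_fun h f

/-- O6b. -/
theorem affG_ne_zero {B₀ : Type} [CommRing B₀] [Algebra K B₀] {q : ℕ} (s : Fin q → Fin n)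
    (β : Fin n → B₀) {f : MvPolynomial (Fin n) K} (h : aeval β f ≠ 0) : affG K s β f ≠ 0 := by
  intro h0
  apply h
  have h1 : ((aeval (R := B₀) (fun _ : Fin q => (0 : B₀))).restrictScalars K).comp (affG K s β)
      = aeval β := by
    apply MvPolynomial.algHom_ext
    intro m
    rw [AlgHom.comp_apply, AlgHom.restrictScalars_apply]
    unfold affG
    rw [aeval_X, aeval_X, map_add, aeval_C, map_sum]
    rw [Finset.sum_eq_zero]
    · simp
    · intro b _
      split_ifs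
      · rw [aeval_X]
      · rw [map_zero]
  rw [← h1, AlgHom.comp_apply, h0, map_zero]

end occ

end Pool.Agent.H626R2.Loc
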